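import Pool.Agent.helper98.RPQ.SpecR
import Pool.Agent.helper62.RS.GLC
import Pool.Agent.helper92.RS.GMG

/-!
# Row `rpq:UNE` (MP_07c750): kernels with values in `[0, ∞]` as integrals over paths
-/

set_option autoImplicit false

open scoped MatrixGroups ContDiff Topology UpperHalfPlane ComplexConjugate ENNReal
open UpperHalfPlane MeasureTheory Filter Set

namespace Pool.Agent.RPQ

open Pool.Agent.RS
open Pool.Agent.MS (BA BB st pf gk Dk amk)

theorem UNE_proof (hVXI : VXI_stmt) : UNE_stmt := by
  obtain ⟨-, hvx2, hvx3, hvxc, -, hsig, hlint, -⟩ := hVXI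
  have hGLC : GLC_stmt := GLC
  have : SecondCountableTopology SL(2, ℝ) := hGLC.2.1
  have : SigmaFinite mG := (GMG hGLC).2.2.1
  intro s hs n
  induction n generalizing s with
  | zero =>
    refine ⟨hs 0, ?_⟩
    intro g h
    have := hsig 0
    have e1 : ∀ v : Fin 0 → SL(2, ℝ), ∏ j ∈ Finset.range (0 + 1), s j (vx g h v j) (vx g h v (j + 1)) = s 0 g h := by
      intro v
      rw [zero_add, Finset.prod_range_one]
      obtain ⟨h1, h2⟩ := hvx3 0 g h v
      rw [h1, h2]
    have e2 : mP 0 univ = 1 := by
      unfold mP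
      rw [← Set.pi_univ univ, Measure.pi_pi]
      simp
    rw [lintegral_congr e1, lintegral_const, e2, mul_one]
    rfl
  | succ n ih =>
    obtain ⟨ihm, ihf⟩ := ih (fun j => s (j + 1)) (fun j => hs (j + 1))
    constructor
    · have h1 : Measurable fun q : (SL(2, ℝ) × SL(2, ℝ)) × SL(2, ℝ) =>
          s 0 q.1.1 q.2 * pM n (fun j => s (j + 1)) q.2 q.1.2 := by
        have m1 : Measurable fun q : (SL(2, ℝ) × SL(2, ℝ)) × SL(2, ℝ) => s 0 q.1.1 q.2 :=
          (hs 0).comp (measurable_fst.fst.prodMk measurable_snd)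
        have m2 : Measurable fun q : (SL(2, ℝ) × SL(2, ℝ)) × SL(2, ℝ) =>
            pM n (fun j => s (j + 1)) q.2 q.1.2 :=
          ihm.comp (measurable_snd.prodMk measurable_fst.snd)
        exact m1.mul m2
      exact h1.lintegral_prod_right'
    · intro g h
      have := hsig n
      have := hsig (n + 1)
      -- the integrand of the induction step
      have hmv : Measurable fun q : SL(2, ℝ) × (Fin n → SL(2, ℝ)) =>
          ∏ j ∈ Finset.range (n + 1), s (j + 1) (vx q.1 h q.2 j) (vx q.1 h q.2 (j + 1)) := by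
        refine Finset.measurable_fun_prod _ fun j _ => ?_
        have c : ∀ i, Measurable fun q : SL(2, ℝ) × (Fin n → SL(2, ℝ)) => vx q.1 h q.2 i := by
          intro i
          exact ((hvxc n i).comp (by fun_prop : Continuous fun q : SL(2, ℝ) × (Fin n → SL(2, ℝ)) =>
            ((q.1, h), q.2))).measurable
        exact (hs (j + 1)).comp ((c j).prodMk (c (j + 1)))
      have hf : Measurable fun q : SL(2, ℝ) × (Fin n → SL(2, ℝ)) => s 0 g q.1 *
          ∏ j ∈ Finset.range (n + 1), s (j + 1) (vx q.1 h q.2 j) (vx q.1 h q.2 (j + 1)) :=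
        ((hs 0).comp (measurable_const.prodMk measurable_fst)).mul hmv
      have key := hlint n _ hf
      have e1 : ∀ v : Fin (n + 1) → SL(2, ℝ),
          ∏ j ∈ Finset.range (n + 1 + 1), s j (vx g h v j) (vx g h v (j + 1)) =
            s 0 g (v 0) * ∏ j ∈ Finset.range (n + 1), s (j + 1) (vx (v 0) h (fun i : Fin n => v i.succ) j)
              (vx (v 0) h (fun i : Fin n => v i.succ) (j + 1)) := by
        intro v
        have e0 : s 0 (vx g h v 0) (vx g h v (0 + 1)) = s 0 g (v 0) := by
          rw [(hvx3 (n + 1) g h v).1, hvx2 n g h v 0, (hvx3 n (v 0) h _).1]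
        have e2 : ∏ j ∈ Finset.range (n + 1), s (j + 1) (vx g h v (j + 1)) (vx g h v (j + 1 + 1)) =
            ∏ j ∈ Finset.range (n + 1), s (j + 1) (vx (v 0) h (fun i : Fin n => v i.succ) j)
              (vx (v 0) h (fun i : Fin n => v i.succ) (j + 1)) := by
          refine Finset.prod_congr rfl fun j _ => ?_
          rw [hvx2 n g h v j, hvx2 n g h v (j + 1)]
        rw [Finset.prod_range_succ', e0, e2, mul_comm]
      rw [lintegral_congr e1]
      refine Eq.trans ?_ key.symm
      show ∫⁻ p, s 0 g p * pM n (fun j => s (j + 1)) p h ∂mG = _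
      refine lintegral_congr fun p => ?_
      rw [ihf p h]
      have hmp : Measurable fun v : Fin n → SL(2, ℝ) =>
          ∏ j ∈ Finset.range (n + 1), s (j + 1) (vx p h v j) (vx p h v (j + 1)) :=
        hmv.comp (measurable_const.prodMk measurable_id)
      exact (lintegral_const_mul _ hmp).symm

end Pool.Agent.RPQ
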