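import Pool.Agent.helper29.RPQ.SpecP

/-!
# Row `rpq:BU2` (MP_07c750): the boundary integral of a packet for large `|t|`
-/

set_option autoImplicit false

open scoped MatrixGroups ContDiff Topology UpperHalfPlane ComplexConjugate
open UpperHalfPlane MeasureTheory Filter Set

namespace Pool.Agent.RPQ

open Pool.Agent.RS
open Pool.Agent.MS (BA BB st pf gk Dk amk)

/-- elementary bounds for the logarithm -/
theorem BU2_log {v : ℝ} (hv : |v| ≤ 1 / 2) :
    |Real.log (1 + v) - v| ≤ 2 * v ^ 2 ∧ |Real.log (1 + v)| ≤ 2 * |v| := by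
  have h1 : |(-v)| < 1 := by rw [abs_neg]; linarith
  have h := Real.abs_log_sub_add_sum_range_le h1 1
  simp only [Finset.sum_range_one, zero_add, pow_one, Nat.cast_zero, div_one, abs_neg, sub_neg_eq_add] at h
  have h2 : |v| ^ (1 + 1) / (1 - |v|) ≤ 2 * v ^ 2 := by
    rw [div_le_iff₀ (by linarith)]
    have : |v| ^ (1 + 1) = v ^ 2 := by norm_num
    rw [this]
    nlinarith [sq_nonneg v]
  have h3 : |Real.log (1 + v) - v| ≤ 2 * v ^ 2 := by
    have e : Real.log (1 + v) - v = -v + Real.log (1 + v) := by ring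
    rw [e]
    exact h.trans h2
  refine ⟨h3, ?_⟩
  have h4 : |Real.log (1 + v)| ≤ |Real.log (1 + v) - v| + |v| := by
    have := abs_add_le (Real.log (1 + v) - v) v
    rwa [sub_add_cancel] at this
  have h5 : v ^ 2 = |v| * |v| := by rw [← sq, sq_abs]
  nlinarith [abs_nonneg v]

/-- the unit circle is parametrised by a `1`-Lipschitz map -/
theorem BU2_circ (A B : ℝ) :
    ‖Complex.exp ((A : ℂ) * Complex.I) - Complex.exp ((B : ℂ) * Complex.I)‖ ≤ |A - B| := by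
  have e : Complex.exp ((A : ℂ) * Complex.I) - Complex.exp ((B : ℂ) * Complex.I) =
      Complex.exp ((B : ℂ) * Complex.I) * (Complex.exp (Complex.I * ((A - B : ℝ) : ℂ)) - 1) := by
    rw [mul_sub, mul_one, ← Complex.exp_add]
    congr 2
    push_cast
    ring
  rw [e, norm_mul, Complex.norm_exp_ofReal_mul_I, one_mul]
  have := Real.norm_exp_I_mul_ofReal_sub_one_le (x := A - B)
  simpa using this

theorem BU2_pow {R t : ℝ} (hR : 100 ≤ R) (ht : R ^ (9 / 16 : ℝ) ≤ |t|) :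
    10 ≤ |t| ∧ 1 / |t| ≤ R ^ (-(1 / 8) : ℝ) ∧ R / |t| ^ 2 ≤ R ^ (-(1 / 8) : ℝ) := by
  have hR0 : 0 < R := by linarith
  have hR1 : 1 ≤ R := by linarith
  have h1 : (10 : ℝ) ≤ R ^ (9 / 16 : ℝ) := by
    calc (10 : ℝ) = 100 ^ (1 / 2 : ℝ) := by
          rw [← Real.sqrt_eq_rpow, show (100 : ℝ) = 10 ^ 2 by norm_num, Real.sqrt_sq (by norm_num)]
      _ ≤ 100 ^ (9 / 16 : ℝ) := Real.rpow_le_rpow_of_exponent_le (by norm_num) (by norm_num)
      _ ≤ R ^ (9 / 16 : ℝ) := Real.rpow_le_rpow (by norm_num) hR (by norm_num)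
  have hp : 0 < R ^ (9 / 16 : ℝ) := by positivity
  have ht0 : 0 < |t| := lt_of_lt_of_le hp ht
  refine ⟨h1.trans ht, ?_, ?_⟩
  · calc 1 / |t| ≤ 1 / R ^ (9 / 16 : ℝ) := one_div_le_one_div_of_le hp ht
      _ = R ^ (-(9 / 16) : ℝ) := by rw [Real.rpow_neg hR0.le, one_div]
      _ ≤ R ^ (-(1 / 8) : ℝ) := Real.rpow_le_rpow_of_exponent_le hR1 (by norm_num)
  · have h2 : R ^ (9 / 8 : ℝ) ≤ |t| ^ 2 := by
      calc R ^ (9 / 8 : ℝ) = (R ^ (9 / 16 : ℝ)) ^ 2 := by
            rw [← Real.rpow_natCast, ← Real.rpow_mul hR0.le]; norm_num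
        _ ≤ |t| ^ 2 := pow_le_pow_left₀ hp.le ht 2
    rw [div_le_iff₀ (by positivity)]
    calc R = R ^ (-(1 / 8) : ℝ) * R ^ (9 / 8 : ℝ) := by
          rw [← Real.rpow_add hR0]; norm_num
      _ ≤ R ^ (-(1 / 8) : ℝ) * |t| ^ 2 := mul_le_mul_of_nonneg_left h2 (by positivity)

theorem BU2_exp {τ : ℝ} (hτ : |τ| ≤ 1 / 8) : Real.exp (2 * τ) ≤ 3 / 2 := by
  have h1 : |2 * τ| ≤ 1 := by rw [abs_mul, abs_two]; linarith
  have h2 := Real.abs_exp_sub_one_le h1
  have h3 : |2 * τ| ≤ 1 / 4 := by rw [abs_mul, abs_two]; linarith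
  have h4 := (abs_le.1 h2).2
  linarith

theorem BU2_pt (R s t x τ : ℝ) (hR : 100 ≤ R) (hs : |s - R| ≤ R / 100) (ht : R ^ (9 / 16 : ℝ) ≤ |t|)
    (hx : |x| ≤ 1 / 8) (hτ : |τ| ≤ 1 / 8) :
    ‖((((x - t) ^ 2 + Real.exp (2 * τ) : ℝ)) : ℂ) ^ (-(1 / 2 : ℂ) + (s : ℂ) * Complex.I) -
      (((|t|)⁻¹ : ℝ) : ℂ) * Complex.exp (((2 * s * Real.log |t| : ℝ) : ℂ) * Complex.I) *
        Complex.exp (-((2 * s / t * x : ℝ) : ℂ) * Complex.I)‖ ≤ 46 * R ^ (-(1 / 8) : ℝ) / |t| := by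
  obtain ⟨h10, ht1, ht2⟩ := BU2_pow hR ht
  have hT : 0 < |t| := by linarith
  have htne : t ≠ 0 := abs_pos.1 hT
  have htsq : |t| ^ 2 = t ^ 2 := sq_abs t
  have hR0 : 0 < R := by linarith
  have hs' := abs_le.1 hs
  have hs0 : 0 ≤ s := by linarith [hs'.1]
  have hs2 : s ≤ 2 * R := by linarith [hs'.2]
  have he := BU2_exp hτ
  have he0 := Real.exp_pos (2 * τ)
  have hx2 : x ^ 2 ≤ 1 / 64 := by
    have := abs_le.1 hx
    nlinarith [this.1, this.2]
  -- the number `v`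
  set e : ℝ := (x ^ 2 + Real.exp (2 * τ)) / t ^ 2 with hedef
  set v : ℝ := -2 * x / t + e with hv
  have ht2pos : 0 < t ^ 2 := by positivity
  have he_nonneg : 0 ≤ e := by positivity
  have he_le : e ≤ 2 / |t| ^ 2 := by
    rw [hedef, htsq]
    gcongr
    linarith
  have hvx : |-2 * x / t| ≤ 1 / 4 / |t| := by
    rw [abs_div, abs_mul, abs_neg, abs_two]
    gcongr
    linarith
  have he_le2 : e ≤ 1 / 5 / |t| := by
    refine he_le.trans ?_
    rw [div_le_div_iff₀ (by positivity) hT]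
    nlinarith
  have hv1 : |v| ≤ 1 / 2 / |t| := by
    calc |v| ≤ |-2 * x / t| + |e| := abs_add_le _ _
      _ ≤ 1 / 4 / |t| + 1 / 5 / |t| := by rw [abs_of_nonneg he_nonneg]; exact add_le_add hvx he_le2
      _ ≤ 1 / 2 / |t| := by rw [← add_div]; gcongr; norm_num
  have hv2 : |v| ≤ 1 / 2 := by
    refine hv1.trans ?_
    rw [div_le_iff₀ hT]
    linarith
  obtain ⟨hL1, hL2⟩ := BU2_log hv2
  have h1v : 0 < 1 + v := by have := abs_le.1 hv2; linarith [this.1]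
  have hz : (x - t) ^ 2 + Real.exp (2 * τ) = |t| ^ 2 * (1 + v) := by
    rw [htsq, hv, hedef]
    field_simp
    ring
  have hzpos : 0 < (x - t) ^ 2 + Real.exp (2 * τ) := by positivity
  have hlog : Real.log ((x - t) ^ 2 + Real.exp (2 * τ)) = 2 * Real.log |t| + Real.log (1 + v) := by
    rw [hz, Real.log_mul (by positivity) h1v.ne', Real.log_pow]
    norm_num
  set L : ℝ := Real.log (1 + v) with hL
  have hcp : ((((x - t) ^ 2 + Real.exp (2 * τ) : ℝ)) : ℂ) ^ (-(1 / 2 : ℂ) + (s : ℂ) * Complex.I) =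
      (((|t|)⁻¹ : ℝ) : ℂ) * Complex.exp (((2 * s * Real.log |t| : ℝ) : ℂ) * Complex.I) *
        (((Real.exp (-(L / 2)) : ℝ) : ℂ) * Complex.exp (((s * L : ℝ) : ℂ) * Complex.I)) := by
    rw [Complex.cpow_def_of_ne_zero (by exact_mod_cast hzpos.ne'), ← Complex.ofReal_log hzpos.le, hlog]
    have e1 : (((|t|)⁻¹ : ℝ) : ℂ) = Complex.exp ((-Real.log |t| : ℝ) : ℂ) := by
      rw [← Complex.ofReal_exp, Real.exp_neg, Real.exp_log hT]
    rw [e1, Complex.ofReal_exp, ← Complex.exp_add, ← Complex.exp_add, ← Complex.exp_add]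
    congr 1
    push_cast
    ring
  rw [hcp, ← mul_sub, norm_mul, norm_mul, Complex.norm_exp_ofReal_mul_I, mul_one, Complex.norm_real,
    Real.norm_of_nonneg (by positivity : 0 ≤ (|t|)⁻¹)]
  have hA : ‖((Real.exp (-(L / 2)) : ℝ) : ℂ) * Complex.exp (((s * L : ℝ) : ℂ) * Complex.I) -
      Complex.exp (((s * L : ℝ) : ℂ) * Complex.I)‖ ≤ 1 / |t| := by
    have e2 : ((Real.exp (-(L / 2)) : ℝ) : ℂ) * Complex.exp (((s * L : ℝ) : ℂ) * Complex.I) -
        Complex.exp (((s * L : ℝ) : ℂ) * Complex.I) =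
        ((Real.exp (-(L / 2)) - 1 : ℝ) : ℂ) * Complex.exp (((s * L : ℝ) : ℂ) * Complex.I) := by
      push_cast
      ring
    rw [e2, norm_mul, Complex.norm_exp_ofReal_mul_I, mul_one, Complex.norm_real, Real.norm_eq_abs]
    have hL3 : |-(L / 2)| ≤ 1 := by
      rw [abs_neg, abs_div, abs_two]
      linarith
    refine (Real.abs_exp_sub_one_le hL3).trans ?_
    rw [abs_neg, abs_div, abs_two]
    have : 2 * |v| ≤ 1 / |t| := by
      calc 2 * |v| ≤ 2 * (1 / 2 / |t|) := by linarith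
        _ = 1 / |t| := by ring
    linarith
  have hB : ‖Complex.exp (((s * L : ℝ) : ℂ) * Complex.I) -
      Complex.exp (-((2 * s / t * x : ℝ) : ℂ) * Complex.I)‖ ≤ 6 * (R / |t| ^ 2) := by
    have e3 : (-((2 * s / t * x : ℝ) : ℂ)) = ((-(2 * s / t * x) : ℝ) : ℂ) := by push_cast; ring
    rw [e3]
    refine (BU2_circ _ _).trans ?_
    have e4 : s * L - -(2 * s / t * x) = s * ((L - v) + e) := by
      rw [hv]; field_simp; ring
    rw [e4, abs_mul, abs_of_nonneg hs0]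
    have h5 : |(L - v) + e| ≤ 1 / 2 / |t| ^ 2 + 2 / |t| ^ 2 := by
      refine (abs_add_le _ _).trans (add_le_add ?_ ?_)
      · refine hL1.trans ?_
        have : v ^ 2 ≤ (1 / 2 / |t|) ^ 2 := by
          rw [← sq_abs v]
          exact pow_le_pow_left₀ (abs_nonneg _) hv1 2
        calc 2 * v ^ 2 ≤ 2 * (1 / 2 / |t|) ^ 2 := by linarith
          _ = 1 / 2 / |t| ^ 2 := by rw [div_pow]; ring
      · rw [abs_of_nonneg he_nonneg]; exact he_le
    calc s * |(L - v) + e| ≤ (2 * R) * (1 / 2 / |t| ^ 2 + 2 / |t| ^ 2) :=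
          mul_le_mul hs2 h5 (abs_nonneg _) (by linarith)
      _ = 5 * (R / |t| ^ 2) := by ring
      _ ≤ 6 * (R / |t| ^ 2) := by
          have : 0 ≤ R / |t| ^ 2 := by positivity
          linarith
  have hAB := norm_sub_le_norm_sub_add_norm_sub
    (((Real.exp (-(L / 2)) : ℝ) : ℂ) * Complex.exp (((s * L : ℝ) : ℂ) * Complex.I))
    (Complex.exp (((s * L : ℝ) : ℂ) * Complex.I)) (Complex.exp (-((2 * s / t * x : ℝ) : ℂ) * Complex.I))
  have hp : 0 ≤ R ^ (-(1 / 8) : ℝ) := by positivity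
  have hfin : ‖((Real.exp (-(L / 2)) : ℝ) : ℂ) * Complex.exp (((s * L : ℝ) : ℂ) * Complex.I) -
      Complex.exp (-((2 * s / t * x : ℝ) : ℂ) * Complex.I)‖ ≤ 46 * R ^ (-(1 / 8) : ℝ) := by
    linarith
  calc (|t|)⁻¹ * ‖((Real.exp (-(L / 2)) : ℝ) : ℂ) * Complex.exp (((s * L : ℝ) : ℂ) * Complex.I) -
      Complex.exp (-((2 * s / t * x : ℝ) : ℂ) * Complex.I)‖
      ≤ (|t|)⁻¹ * (46 * R ^ (-(1 / 8) : ℝ)) := mul_le_mul_of_nonneg_left hfin (by positivity)
    _ = 46 * R ^ (-(1 / 8) : ℝ) / |t| := by rw [inv_mul_eq_div]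

/-- functions of two variables supported in the box -/
theorem BU2_int {f : ℝ × ℝ → ℂ} (hc : Continuous f)
    (hs : ∀ p : ℝ × ℝ, f p ≠ 0 → |p.1| ≤ 1 / 8 ∧ |p.2| ≤ 1 / 8) :
    Integrable f ((volume : Measure ℝ).prod (volume : Measure ℝ)) := by
  refine hc.integrable_of_hasCompactSupport ?_
  refine HasCompactSupport.intro (K := Icc (-(1 / 8) : ℝ) (1 / 8) ×ˢ Icc (-(1 / 8) : ℝ) (1 / 8))
    (isCompact_Icc.prod isCompact_Icc) ?_
  intro p hp
  by_contra h
  obtain ⟨h1, h2⟩ := hs p h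
  exact hp ⟨abs_le.1 h1, abs_le.1 h2⟩

theorem BU2_main (b a : ℝ → ℝ) (hb : SB (1 / 8) b) (ha : BA (1 / 8) a) (R s t : ℝ) (hR : 100 ≤ R)
    (hs : |s - R| ≤ R / 100) (ht : R ^ (9 / 16 : ℝ) ≤ |t|) :
    ‖bI (pr b a) R s t - (((|t|)⁻¹ : ℝ) : ℂ) * Complex.exp (((2 * s * Real.log |t| : ℝ) : ℂ) * Complex.I) *
      (hF b (2 * s / t) * hF a (s - R))‖ ≤ 46 * R ^ (-(1 / 8) : ℝ) / |t| * ∫ x, |b x| := by
  obtain ⟨⟨hac, has⟩, ha0, ha1⟩ := ha
  obtain ⟨hbc, hbs⟩ := hb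
  have hacont : Continuous a := hac.continuous
  have hbcont : Continuous b := hbc.continuous
  set k : ℂ := (((|t|)⁻¹ : ℝ) : ℂ) * Complex.exp (((2 * s * Real.log |t| : ℝ) : ℂ) * Complex.I) with hk
  -- the two functions on the product
  set F : ℝ × ℝ → ℂ := fun p => pr b a p.2 p.1 * Complex.exp ((((R - s) * p.1 : ℝ) : ℂ) * Complex.I) *
    ((((p.2 - t) ^ 2 + Real.exp (2 * p.1) : ℝ)) : ℂ) ^ (-(1 / 2 : ℂ) + (s : ℂ) * Complex.I) with hF
  set G : ℝ × ℝ → ℂ := fun p => pr b a p.2 p.1 * Complex.exp ((((R - s) * p.1 : ℝ) : ℂ) * Complex.I) *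
    (k * Complex.exp (-((2 * s / t * p.2 : ℝ) : ℂ) * Complex.I)) with hG
  have hprc : Continuous (fun p : ℝ × ℝ => pr b a p.2 p.1) := by
    unfold pr
    fun_prop
  have hprs : ∀ p : ℝ × ℝ, pr b a p.2 p.1 ≠ 0 → |p.1| ≤ 1 / 8 ∧ |p.2| ≤ 1 / 8 := by
    intro p hp
    unfold pr at hp
    have h1 : b p.2 * a p.1 ≠ 0 := by exact_mod_cast hp
    exact ⟨has _ (right_ne_zero_of_mul h1), hbs _ (left_ne_zero_of_mul h1)⟩
  have hFc : Continuous F := by
    rw [hF]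
    refine (hprc.mul (by fun_prop)).mul ?_
    refine Continuous.cpow (by fun_prop) continuous_const ?_
    intro p
    rw [Complex.ofReal_mem_slitPlane]
    positivity
  have hGc : Continuous G := by
    rw [hG]
    exact (hprc.mul (by fun_prop)).mul (by fun_prop)
  have hFi : Integrable F ((volume : Measure ℝ).prod (volume : Measure ℝ)) :=
    BU2_int hFc fun p hp => hprs p (left_ne_zero_of_mul (left_ne_zero_of_mul hp))
  have hGi : Integrable G ((volume : Measure ℝ).prod (volume : Measure ℝ)) :=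
    BU2_int hGc fun p hp => hprs p (left_ne_zero_of_mul (left_ne_zero_of_mul hp))
  have hbI : bI (pr b a) R s t = ∫ p, F p ∂((volume : Measure ℝ).prod (volume : Measure ℝ)) := by
    rw [integral_prod _ hFi]
    rfl
  have hM : k * (RS.hF b (2 * s / t) * RS.hF a (s - R)) =
      ∫ p, G p ∂((volume : Measure ℝ).prod (volume : Measure ℝ)) := by
    have e1 : ∀ p : ℝ × ℝ, G p = k * (((a p.1 : ℂ) * Complex.exp (-(((s - R) * p.1 : ℝ) : ℂ) * Complex.I)) *
        ((b p.2 : ℂ) * Complex.exp (-((2 * s / t * p.2 : ℝ) : ℂ) * Complex.I))) := by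
      intro p
      simp only [hG, pr]
      have e2 : (((R - s) * p.1 : ℝ) : ℂ) = -(((s - R) * p.1 : ℝ) : ℂ) := by push_cast; ring
      rw [e2]
      push_cast
      ring
    rw [integral_congr_ae (Filter.Eventually.of_forall e1), integral_const_mul,
      integral_prod_mul (μ := (volume : Measure ℝ)) (ν := (volume : Measure ℝ))
        (fun τ : ℝ => (a τ : ℂ) * Complex.exp (-(((s - R) * τ : ℝ) : ℂ) * Complex.I))
        (fun x : ℝ => (b x : ℂ) * Complex.exp (-((2 * s / t * x : ℝ) : ℂ) * Complex.I))]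
    unfold RS.hF
    ring
  rw [hbI, hM, ← integral_sub hFi hGi]
  have hbound : ∀ p : ℝ × ℝ, ‖F p - G p‖ ≤ 46 * R ^ (-(1 / 8) : ℝ) / |t| * (a p.1 * |b p.2|) := by
    intro p
    have e1 : F p - G p = pr b a p.2 p.1 * Complex.exp ((((R - s) * p.1 : ℝ) : ℂ) * Complex.I) *
        (((((p.2 - t) ^ 2 + Real.exp (2 * p.1) : ℝ)) : ℂ) ^ (-(1 / 2 : ℂ) + (s : ℂ) * Complex.I) -
          k * Complex.exp (-((2 * s / t * p.2 : ℝ) : ℂ) * Complex.I)) := by
      simp only [hF, hG]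
      ring
    rw [e1, norm_mul, norm_mul, Complex.norm_exp_ofReal_mul_I, mul_one]
    by_cases h0 : pr b a p.2 p.1 = 0
    · rw [h0, norm_zero, zero_mul]
      have := ha0 p.1
      positivity
    · obtain ⟨h1, h2⟩ := hprs p h0
      have h3 := BU2_pt R s t p.2 p.1 hR hs ht h2 h1
      have h4 : ‖pr b a p.2 p.1‖ = a p.1 * |b p.2| := by
        unfold pr
        rw [Complex.norm_real, Real.norm_eq_abs, abs_mul, abs_of_nonneg (ha0 p.1), mul_comm]
      rw [h4, mul_comm]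
      refine mul_le_mul_of_nonneg_right ?_ (mul_nonneg (ha0 _) (abs_nonneg _))
      exact h3
  have hai : Integrable a := by
    refine hacont.integrable_of_hasCompactSupport ?_
    refine HasCompactSupport.intro (K := Icc (-(1 / 8) : ℝ) (1 / 8)) isCompact_Icc ?_
    intro x hx
    by_contra h
    exact hx (abs_le.1 (has x h))
  have hbi : Integrable (fun x => |b x|) := by
    refine hbcont.abs.integrable_of_hasCompactSupport ?_
    refine HasCompactSupport.intro (K := Icc (-(1 / 8) : ℝ) (1 / 8)) isCompact_Icc ?_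
    intro x hx
    by_contra h
    exact hx (abs_le.1 (hbs x (abs_ne_zero.1 h)))
  have hgi : Integrable (fun p : ℝ × ℝ => 46 * R ^ (-(1 / 8) : ℝ) / |t| * (a p.1 * |b p.2|))
      ((volume : Measure ℝ).prod (volume : Measure ℝ)) := (hai.mul_prod hbi).const_mul _
  refine (norm_integral_le_of_norm_le hgi (Filter.Eventually.of_forall hbound)).trans ?_
  rw [integral_const_mul, integral_prod_mul (μ := (volume : Measure ℝ)) (ν := (volume : Measure ℝ)) a
    (fun x => |b x|), ha1, one_mul]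

theorem BU2_proof (hCWB : CWB_stmt) : BU2_stmt := by
  intro α β hα hβ
  refine ⟨46 * (∫ x, |β x|) + 1, ?_, ?_⟩
  · have : 0 ≤ ∫ x, |β x| := integral_nonneg fun x => abs_nonneg _
    linarith
  intro R s w l t hR hs hw hw1 hl hl1 ht
  obtain ⟨h1, -, -, h4, h5, -, -, -, h9, -⟩ := hCWB α β w l hα hβ hw hw1 hl hl1
  rw [h9]
  refine (BU2_main _ _ h4.1 h5 R s t hR hs ht).trans ?_
  have hint : ∫ x, |st (Real.log w) β x| = Real.sqrt w * ∫ x, |β x| := by
    have e1 : ∀ x, |st (Real.log w) β x| = w ^ (-(1 / 2) : ℝ) * |β (x / w)| := by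
      intro x
      rw [h1 x, abs_mul, abs_of_nonneg (by positivity)]
    rw [integral_congr_ae (Filter.Eventually.of_forall e1), integral_const_mul,
      Measure.integral_comp_div (fun x => |β x|) w, abs_of_pos hw, smul_eq_mul, ← mul_assoc]
    congr 1
    rw [Real.sqrt_eq_rpow]
    nth_rewrite 2 [← Real.rpow_one w]
    rw [← Real.rpow_add hw]
    norm_num
  rw [hint]
  have hI : 0 ≤ ∫ x, |β x| := integral_nonneg fun x => abs_nonneg _
  have hE : 0 ≤ Real.sqrt w * R ^ (-(1 / 8) : ℝ) / |t| := by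
    have : 0 ≤ R ^ (-(1 / 8) : ℝ) := Real.rpow_nonneg (by linarith) _
    positivity
  calc 46 * R ^ (-(1 / 8) : ℝ) / |t| * (Real.sqrt w * ∫ x, |β x|)
      = 46 * (∫ x, |β x|) * (Real.sqrt w * R ^ (-(1 / 8) : ℝ) / |t|) := by ring
    _ ≤ (46 * (∫ x, |β x|) + 1) * (Real.sqrt w * R ^ (-(1 / 8) : ℝ) / |t|) := by
        refine mul_le_mul_of_nonneg_right ?_ hE
        linarith

end Pool.Agent.RPQ
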